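import Mathlib
import Pool.Agent.Helper434.Pentagon

/-!
# A Borsuk-Ulam type statement for the quarter turn of `ℝ⁴ ∖ 0`
-/
set_option autoImplicit false
open Set Filter Topology Complex

namespace Pool.Agent.T9h87.Engel

/-- `ℝ⁴`. -/
abbrev E4 : Type := EuclideanSpace ℝ (Fin 4)

/-- left multiplication by the quaternion `i`. -/
noncomputable def I4 : E4 →L[ℝ] E4 :=
  LinearMap.toContinuousLinearMap
    { toFun := fun y => !₂[-y 1, y 0, -y 3, y 2]
      map_add' := by
        intro x y
        ext i
        fin_cases i <;> simp <;> ring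
      map_smul' := by
        intro c x
        ext i
        fin_cases i <;> simp }

/-- left multiplication by the quaternion `j`. -/
noncomputable def J4 : E4 →L[ℝ] E4 :=
  LinearMap.toContinuousLinearMap
    { toFun := fun y => !₂[-y 2, y 3, y 0, -y 1]
      map_add' := by
        intro x y
        ext i
        fin_cases i <;> simp <;> ring
      map_smul' := by
        intro c x
        ext i
        fin_cases i <;> simp }

/-- left multiplication by the quaternion `k`. -/
noncomputable def K4 : E4 →L[ℝ] E4 :=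
  LinearMap.toContinuousLinearMap
    { toFun := fun y => !₂[-y 3, -y 2, y 1, y 0]
      map_add' := by
        intro x y
        ext i
        fin_cases i <;> simp <;> ring
      map_smul' := by
        intro c x
        ext i
        fin_cases i <;> simp }

theorem I4_apply (y : E4) : I4 y = !₂[-y 1, y 0, -y 3, y 2] := rfl
theorem J4_apply (y : E4) : J4 y = !₂[-y 2, y 3, y 0, -y 1] := rfl
theorem K4_apply (y : E4) : K4 y = !₂[-y 3, -y 2, y 1, y 0] := rfl

theorem I4_I4 (y : E4) : I4 (I4 y) = -y := by
  ext i; fin_cases i <;> simp [I4_apply]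

theorem I4_J4 (y : E4) : I4 (J4 y) = K4 y := by
  ext i; fin_cases i <;> simp [I4_apply, J4_apply, K4_apply]

theorem I4_K4 (y : E4) : I4 (K4 y) = - J4 y := by
  ext i; fin_cases i <;> simp [I4_apply, J4_apply, K4_apply]

theorem J4_I4 (y : E4) : J4 (I4 y) = - K4 y := by
  ext i; fin_cases i <;> simp [I4_apply, J4_apply, K4_apply]

theorem K4_I4 (y : E4) : K4 (I4 y) = J4 y := by
  ext i; fin_cases i <;> simp [I4_apply, J4_apply, K4_apply]

theorem J4_K4 (y : E4) : J4 (K4 y) = I4 y := by
  ext i; fin_cases i <;> simp [I4_apply, J4_apply, K4_apply]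

theorem K4_J4 (y : E4) : K4 (J4 y) = - I4 y := by
  ext i; fin_cases i <;> simp [I4_apply, J4_apply, K4_apply]

/-- the plane, embedded so that the closed unit disc is a hemisphere. -/
noncomputable def dsk (z : ℂ) : E4 := !₂[z.re, z.im, √(1 - ‖z‖ ^ 2), 0]

theorem dsk_ne (z : ℂ) : dsk z ≠ 0 := by
  intro h
  have h0 := congrArg (fun v : E4 => v 0) h
  have h1 := congrArg (fun v : E4 => v 1) h
  have h2 := congrArg (fun v : E4 => v 2) h
  simp [dsk] at h0 h1 h2
  have hz : z = 0 := Complex.ext h0 h1
  rw [hz] at h2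
  norm_num at h2

theorem continuous_dsk : Continuous dsk := by
  unfold dsk
  apply Continuous.comp (PiLp.continuous_toLp 2 _)
  refine continuous_pi fun i => ?_
  fin_cases i
  · exact Complex.continuous_re
  · exact Complex.continuous_im
  · exact Real.continuous_sqrt.comp (continuous_const.sub (continuous_norm.pow 2))
  · exact continuous_const

theorem dsk_I (z : ℂ) (hz : ‖z‖ = 1) : dsk (Complex.I * z) = I4 (dsk z) := by
  ext i
  fin_cases i <;> simp [dsk, I4_apply, hz]

/-- There is no nowhere zero continuous complex function on `ℝ⁴ ∖ 0` that changes its sign under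
the quarter turn `I4`. -/
theorem no_odd (f : E4 → ℂ) (hf : ∀ y, y ≠ 0 → ContinuousAt f y) (h0 : ∀ y, y ≠ 0 → f y ≠ 0)
    (hodd : ∀ y, y ≠ 0 → f (I4 y) = - f y) : False := by
  have hg : Continuous fun z => f (dsk z) := by
    rw [continuous_iff_continuousAt]
    intro z
    exact (hf _ (dsk_ne z)).comp continuous_dsk.continuousAt
  obtain ⟨l, hl, he⟩ := Pool.Agent.Helper434.Pentagon.exists_log hg (fun z => h0 _ (dsk_ne z))
  have key : ∀ z : ℂ, ‖z‖ = 1 → ∃ n : ℤ, l (Complex.I * z) - l z = (2 * n + 1) * (Real.pi * Complex.I) := by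
    intro z hz
    have h1 : Complex.exp (l (Complex.I * z)) = - Complex.exp (l z) := by
      rw [he, he, dsk_I z hz, hodd _ (dsk_ne z)]
    have h2 : Complex.exp (l (Complex.I * z)) = Complex.exp (l z + Real.pi * Complex.I) := by
      rw [Complex.exp_add, Complex.exp_pi_mul_I, h1]; ring
    obtain ⟨n, hn⟩ := Complex.exp_eq_exp_iff_exists_int.1 h2
    refine ⟨n, ?_⟩
    rw [hn]; ring
  -- the integer is constant
  let φ : ℝ → ℝ := fun t =>
    ((l (Complex.I * Complex.exp (t * Complex.I)) - l (Complex.exp (t * Complex.I))).im / Real.pi - 1) / 2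
  have hφ : Continuous φ := by
    have h1 : Continuous fun t : ℝ => Complex.exp (t * Complex.I) := by fun_prop
    have h2 : Continuous fun t : ℝ => l (Complex.I * Complex.exp (t * Complex.I)) - l (Complex.exp (t * Complex.I)) :=
      (hl.comp (continuous_const.mul h1)).sub (hl.comp h1)
    have h3 : Continuous fun t : ℝ => (l (Complex.I * Complex.exp (t * Complex.I)) - l (Complex.exp (t * Complex.I))).im :=
      Complex.continuous_im.comp h2
    exact ((h3.div_const _).sub continuous_const).div_const _
  have hφv : ∀ (t : ℝ) (n : ℤ), l (Complex.I * Complex.exp (t * Complex.I)) - l (Complex.exp (t * Complex.I)) =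
      (2 * n + 1) * (Real.pi * Complex.I) → φ t = n := by
    intro t n h
    change ((l (Complex.I * Complex.exp (t * Complex.I)) - l (Complex.exp (t * Complex.I))).im / Real.pi - 1) / 2 = n
    rw [h]
    have : ((2 * (n : ℂ) + 1) * (Real.pi * Complex.I)).im = (2 * n + 1) * Real.pi := by
      simp
    rw [this]
    have hpi := Real.pi_ne_zero
    field_simp
    ring
  have hφi : ∀ t, ∃ n : ℤ, φ t = n := by
    intro t
    obtain ⟨n, hn⟩ := key (Complex.exp (t * Complex.I)) (Complex.norm_exp_ofReal_mul_I t)
    exact ⟨n, hφv t n hn⟩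
  obtain ⟨n, hn⟩ := key 1 (by simp)
  have h00 : φ 0 = n := hφv 0 n (by simpa using hn)
  have hall : ∀ t : ℝ, l (Complex.I * Complex.exp (t * Complex.I)) - l (Complex.exp (t * Complex.I)) =
      (2 * n + 1) * (Real.pi * Complex.I) := by
    intro t
    obtain ⟨m, hm⟩ := key (Complex.exp (t * Complex.I)) (Complex.norm_exp_ofReal_mul_I t)
    have h1 := hφv t m hm
    have h2 := Pool.Agent.Helper434.Pentagon.int_const hφ hφi t 0
    rw [h1, h00] at h2
    have : m = n := by exact_mod_cast h2
    rw [hm, this]
  have e0 := hall 0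
  have e1 := hall (Real.pi / 2)
  have e2 := hall Real.pi
  have e3 := hall (Real.pi / 2 + Real.pi)
  have hI1 : Complex.exp (((Real.pi / 2 : ℝ) : ℂ) * Complex.I) = Complex.I := by
    push_cast
    exact Complex.exp_pi_div_two_mul_I
  have hI2 : Complex.exp ((Real.pi : ℂ) * Complex.I) = -1 := Complex.exp_pi_mul_I
  have hI3 : Complex.exp (((Real.pi / 2 + Real.pi : ℝ) : ℂ) * Complex.I) = - Complex.I := by
    push_cast
    rw [add_mul, Complex.exp_add, hI2]
    have : Complex.exp (Real.pi / 2 * Complex.I) = Complex.I := Complex.exp_pi_div_two_mul_I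
    rw [this]; ring
  rw [hI1] at e1
  rw [hI2] at e2
  rw [hI3] at e3
  simp only [Complex.ofReal_zero, zero_mul, Complex.exp_zero, mul_one] at e0
  have hII : Complex.I * Complex.I = -1 := Complex.I_mul_I
  rw [hII] at e1
  have hII2 : Complex.I * -1 = - Complex.I := by ring
  rw [hII2] at e2
  have hII3 : Complex.I * - Complex.I = 1 := by rw [mul_neg, hII]; ring
  rw [hII3] at e3
  have hsum : (4 : ℂ) * ((2 * n + 1) * (Real.pi * Complex.I)) = 0 := by
    linear_combination -(e0 + e1 + e2 + e3)
  have hpi : (Real.pi : ℂ) * Complex.I ≠ 0 := mul_ne_zero (by exact_mod_cast Real.pi_ne_zero) Complex.I_ne_zero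
  have h4 : (2 * (n : ℂ) + 1) = 0 := by
    rcases mul_eq_zero.1 hsum with h | h
    · norm_num at h
    · rcases mul_eq_zero.1 h with h | h
      · exact h
      · exact absurd h hpi
  have h5 : (2 * n + 1 : ℤ) = 0 := by exact_mod_cast h4
  omega

end Pool.Agent.T9h87.Engel
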