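import Mathlib
import Pool.Agent.T9h87.Engel.Top

/-!
# The closed four-manifold `(ℝ⁴ ∖ 0) / (x ~ i x, x ~ 2 x)`
-/
set_option autoImplicit false
set_option linter.unusedSectionVars false
open Set Filter Topology
open scoped ContDiff Manifold

namespace Pool.Agent.T9h87.Engel

/-- `ℝ⁴ ∖ 0`. -/
def Om : TopologicalSpace.Opens E4 := ⟨{0}ᶜ, isOpen_compl_singleton⟩

/-- the deck group `ℤ × ℤ/4`. -/
abbrev GG : Type := Multiplicative (ℤ × ZMod 4)

/-- cosine of `a` quarter turns -/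
def cZ (a : ZMod 4) : ℤ := (![1, 0, -1, 0] : Fin 4 → ℤ) a
/-- sine of `a` quarter turns -/
def sZ (a : ZMod 4) : ℤ := (![0, 1, 0, -1] : Fin 4 → ℤ) a

theorem cZ_add : ∀ a b : ZMod 4, cZ (a + b) = cZ a * cZ b - sZ a * sZ b := by decide
theorem sZ_add : ∀ a b : ZMod 4, sZ (a + b) = sZ a * cZ b + cZ a * sZ b := by decide
theorem cs_sq : ∀ a : ZMod 4, cZ a ^ 2 + sZ a ^ 2 = 1 := by decide
theorem cs_mul : ∀ a : ZMod 4, cZ a * sZ a = 0 := by decide
theorem cZ_eq : ∀ a : ZMod 4, cZ a = 1 → a = 0 := by decide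

/-- first component -/
def gm (g : GG) : ℤ := (Multiplicative.toAdd g).1
/-- second component -/
def ga (g : GG) : ZMod 4 := (Multiplicative.toAdd g).2

theorem gm_mul (g h : GG) : gm (g * h) = gm g + gm h := rfl
theorem ga_mul (g h : GG) : ga (g * h) = ga g + ga h := rfl
theorem gm_one : gm 1 = 0 := rfl
theorem ga_one : ga 1 = 0 := rfl

/-- the linear map given by a deck transformation. -/
noncomputable def LL (g : GG) : E4 →L[ℝ] E4 :=
  (2 : ℝ) ^ gm g • ((cZ (ga g) : ℝ) • ContinuousLinearMap.id ℝ E4 + (sZ (ga g) : ℝ) • I4)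

theorem LL_apply (g : GG) (y : E4) :
    LL g y = (2 : ℝ) ^ gm g • ((cZ (ga g) : ℝ) • y + (sZ (ga g) : ℝ) • I4 y) := rfl

theorem LL_one (y : E4) : LL 1 y = y := by
  rw [LL_apply, gm_one, ga_one]
  simp [cZ, sZ]

theorem LL_mul (g h : GG) (y : E4) : LL (g * h) y = LL g (LL h y) := by
  rw [LL_apply, LL_apply, LL_apply, gm_mul, ga_mul, zpow_add₀ two_ne_zero, cZ_add, sZ_add]
  simp only [map_smul, map_add, I4_I4]
  push_cast
  module

theorem LL_inv (g : GG) (y : E4) : LL g⁻¹ (LL g y) = y := by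
  rw [← LL_mul, inv_mul_cancel, LL_one]

theorem LL_inv' (g : GG) (y : E4) : LL g (LL g⁻¹ y) = y := by
  rw [← LL_mul, mul_inv_cancel, LL_one]

theorem LL_ne {y : E4} (g : GG) (hy : y ≠ 0) : LL g y ≠ 0 := by
  intro h
  apply hy
  rw [← LL_inv g y, h, map_zero]

theorem nsq (y : E4) : ‖y‖ ^ 2 = y 0 ^ 2 + y 1 ^ 2 + y 2 ^ 2 + y 3 ^ 2 := by
  rw [EuclideanSpace.real_norm_sq_eq, Fin.sum_univ_four]

theorem norm_rot (a : ZMod 4) (y : E4) : ‖(cZ a : ℝ) • y + (sZ a : ℝ) • I4 y‖ = ‖y‖ := by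
  have h1 : ‖(cZ a : ℝ) • y + (sZ a : ℝ) • I4 y‖ ^ 2 = ‖y‖ ^ 2 := by
    have h2 : ((cZ a : ℝ)) ^ 2 + (sZ a : ℝ) ^ 2 = 1 := by exact_mod_cast cs_sq a
    rw [nsq, nsq]
    simp [I4_apply]
    linear_combination (y 0 ^ 2 + y 1 ^ 2 + y 2 ^ 2 + y 3 ^ 2) * h2
  exact (pow_left_inj₀ (norm_nonneg _) (norm_nonneg _) two_ne_zero).1 h1

theorem norm_LL (g : GG) (y : E4) : ‖LL g y‖ = 2 ^ gm g * ‖y‖ := by
  rw [LL_apply, norm_smul, norm_rot, norm_zpow, Real.norm_ofNat]

theorem I4_LL (g : GG) (y : E4) : I4 (LL g y) = LL g (I4 y) := by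
  rw [LL_apply, LL_apply]
  simp only [map_smul, map_add, I4_I4]

/-- the sign by which a deck transformation acts on the line fields -/
noncomputable def sg (g : GG) : ℝ := (cZ (ga g) : ℝ) ^ 2 - (sZ (ga g) : ℝ) ^ 2

theorem sgn_aux : ∀ a : ZMod 4, (cZ a ^ 2 - sZ a ^ 2) * cZ a = cZ a ∧
    (cZ a ^ 2 - sZ a ^ 2) * sZ a = - sZ a ∧ (cZ a ^ 2 - sZ a ^ 2) ^ 2 = 1 := by decide

theorem sg_sq (g : GG) : sg g ^ 2 = 1 := by
  unfold sg
  exact_mod_cast (sgn_aux (ga g)).2.2

theorem sg_ne (g : GG) : sg g ≠ 0 := by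
  intro h
  have := sg_sq g
  rw [h] at this
  norm_num at this

theorem J4_LL (g : GG) (y : E4) : J4 (LL g y) = sg g • LL g (J4 y) := by
  have h1 : sg g * (cZ (ga g) : ℝ) = cZ (ga g) := by unfold sg; exact_mod_cast (sgn_aux (ga g)).1
  have h2 : sg g * (sZ (ga g) : ℝ) = - sZ (ga g) := by unfold sg; exact_mod_cast (sgn_aux (ga g)).2.1
  rw [LL_apply, LL_apply]
  simp only [map_smul, map_add, J4_I4, I4_J4]
  match_scalars
  · linear_combination (-(2 : ℝ) ^ gm g) * h1
  · linear_combination (-(2 : ℝ) ^ gm g) * h2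

theorem K4_LL (g : GG) (y : E4) : K4 (LL g y) = sg g • LL g (K4 y) := by
  have h1 : sg g * (cZ (ga g) : ℝ) = cZ (ga g) := by unfold sg; exact_mod_cast (sgn_aux (ga g)).1
  have h2 : sg g * (sZ (ga g) : ℝ) = - sZ (ga g) := by unfold sg; exact_mod_cast (sgn_aux (ga g)).2.1
  rw [LL_apply, LL_apply]
  simp only [map_smul, map_add, K4_I4, I4_K4]
  match_scalars
  · linear_combination (-(2 : ℝ) ^ gm g) * h1
  · linear_combination ((2 : ℝ) ^ gm g) * h2

theorem Om_ne (x : Om) : (x : E4) ≠ 0 := x.2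

noncomputable instance : MulAction GG Om where
  smul g x := ⟨LL g (x : E4), LL_ne g (Om_ne x)⟩
  one_smul x := Subtype.ext (LL_one _)
  mul_smul g h x := Subtype.ext (LL_mul g h _)

theorem smul_val (g : GG) (x : Om) : ((g • x : Om) : E4) = LL g (x : E4) := rfl

instance : ContinuousConstSMul GG Om where
  continuous_const_smul g := by
    refine Continuous.subtype_mk (f := fun x : Om => LL g (x : E4)) ?_ _
    exact (LL g).continuous.comp continuous_subtype_val

theorem two_ne (m : ℤ) : (2 : ℝ) ^ m ≠ 0 := zpow_ne_zero _ two_ne_zero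

theorem log_LL (g : GG) {y : E4} (hy : y ≠ 0) : Real.log ‖LL g y‖ = (gm g : ℤ) * Real.log 2 + Real.log ‖y‖ := by
  rw [norm_LL, Real.log_mul (two_ne _) (norm_ne_zero_iff.2 hy), Real.log_zpow]

theorem cont_log : Continuous fun x : Om => Real.log ‖(x : E4)‖ :=
  (continuous_norm.comp continuous_subtype_val).log fun x => norm_ne_zero_iff.2 (Om_ne x)

instance : ProperlyDiscontinuousSMul GG Om where
  finite_disjoint_inter_image {K L} hK hL := by
    obtain ⟨R1, hR1⟩ := hK.exists_bound_of_continuousOn cont_log.continuousOn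
    obtain ⟨R2, hR2⟩ := hL.exists_bound_of_continuousOn cont_log.continuousOn
    obtain ⟨N, hN⟩ := exists_nat_ge ((R1 + R2) / Real.log 2)
    have hfin : ((Set.Icc (-(N : ℤ)) (N : ℤ)) ×ˢ (Set.univ : Set (ZMod 4))).Finite :=
      (Set.finite_Icc _ _).prod Set.finite_univ
    refine Set.Finite.of_finite_image (f := fun g : GG => (Multiplicative.toAdd g : ℤ × ZMod 4)) ?_
      (Multiplicative.toAdd.injective.injOn)
    refine hfin.subset ?_
    rintro _ ⟨g, ⟨y, ⟨x, hx, rfl⟩, hy⟩, rfl⟩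
    have h1 := hR1 x hx
    have h2 := hR2 _ hy
    have h3 := log_LL g (Om_ne x)
    have h2l : 0 < Real.log 2 := Real.log_pos one_lt_two
    rw [Real.norm_eq_abs] at h1 h2
    have h4 : |((gm g : ℤ) : ℝ) * Real.log 2| ≤ R1 + R2 := by
      have : ((gm g : ℤ) : ℝ) * Real.log 2 =
        Real.log ‖LL g (x : E4)‖ - Real.log ‖(x : E4)‖ := by rw [h3]; ring
      rw [this]
      refine (abs_sub _ _).trans ?_
      have h2' : |Real.log ‖LL g (x : E4)‖| ≤ R2 := h2
      linarith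
    rw [abs_mul, abs_of_pos h2l, ← le_div_iff₀ h2l] at h4
    have h5 := h4.trans hN
    have h6 : |gm g| ≤ (N : ℤ) := by exact_mod_cast h5
    exact ⟨⟨(abs_le.1 h6).1, (abs_le.1 h6).2⟩, Set.mem_univ _⟩

theorem free_aux {g : GG} {y : E4} (hy : y ≠ 0) (h : LL g y = y) : g = 1 := by
  have h1 := log_LL g hy
  rw [h] at h1
  have h2l : 0 < Real.log 2 := Real.log_pos one_lt_two
  have h2 : ((gm g : ℤ) : ℝ) * Real.log 2 = 0 := by linarith
  have h3 : gm g = 0 := by
    rcases mul_eq_zero.1 h2 with h3 | h3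
    · exact_mod_cast h3
    · exact absurd h3 h2l.ne'
  have h4 : (cZ (ga g) : ℝ) • y + (sZ (ga g) : ℝ) • I4 y = y := by
    rw [LL_apply, h3, zpow_zero, one_smul] at h
    exact h
  have h5 : (cZ (ga g) : ℝ) = 1 := by
    have hn : ‖y‖ ^ 2 ≠ 0 := pow_ne_zero _ (norm_ne_zero_iff.2 hy)
    have e0 := congrArg (fun v : E4 => v 0) h4
    have e1 := congrArg (fun v : E4 => v 1) h4
    have e2 := congrArg (fun v : E4 => v 2) h4
    have e3 := congrArg (fun v : E4 => v 3) h4
    simp [I4_apply] at e0 e1 e2 e3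
    have hh : ((cZ (ga g) : ℝ) - 1) * ‖y‖ ^ 2 = 0 := by
      rw [nsq]
      linear_combination y 0 * e0 + y 1 * e1 + y 2 * e2 + y 3 * e3
    rcases mul_eq_zero.1 hh with h6 | h6
    · linarith
    · exact absurd h6 hn
  have h6 : ga g = 0 := cZ_eq _ (by exact_mod_cast h5)
  have h7 : Multiplicative.toAdd g = (0, 0) := Prod.ext h3 h6
  exact h7

instance : IsCancelSMul GG Om := by
  rw [isCancelSMul_iff_eq_one_of_smul_eq]
  intro g x h
  exact free_aux (Om_ne x) (congrArg Subtype.val h)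

instance : LocallyCompactSpace Om := Om.isOpen.locallyCompactSpace

/-- The closed manifold. -/
abbrev MM : Type := MulAction.orbitRel.Quotient GG Om

noncomputable example : ChartedSpace E4 MM := inferInstance
example : T2Space MM := inferInstance

instance : SecondCountableTopology MM :=
  ContinuousConstSMul.secondCountableTopology (Γ := GG) (T := Om)

/-- the class of a point of `ℝ⁴ ∖ 0`. -/
noncomputable def mk (x : Om) : MM := Quotient.mk _ x

theorem mk_surj : Function.Surjective mk := Quotient.mk_surjective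

theorem continuous_mk : Continuous mk := continuous_quotient_mk'

theorem mk_eq_iff {a b : Om} : mk a = mk b ↔ ∃ g : GG, LL g (a : E4) = b := by
  unfold mk
  rw [Quotient.eq'', MulAction.orbitRel_apply, MulAction.mem_orbit_iff]
  constructor
  · rintro ⟨g, h⟩
    refine ⟨g⁻¹, ?_⟩
    rw [← h, smul_val, LL_inv]
  · rintro ⟨g, h⟩
    refine ⟨g⁻¹, Subtype.ext ?_⟩
    rw [smul_val, ← h, LL_inv]

/-- a point of `ℝ⁴ ∖ 0` -/
noncomputable def e1 : Om := ⟨!₂[1, 0, 0, 0], by
  change (!₂[1, 0, 0, 0] : E4) ≠ 0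
  intro h
  have := congrArg (fun v : E4 => v 0) h
  simp at this⟩

/-- the projection `ℝ⁴ ∖ 0 → M`, with an arbitrary value at `0`. -/
noncomputable def prj (y : E4) : MM :=
  open Classical in if h : y ≠ 0 then mk ⟨y, h⟩ else mk e1

theorem prj_of {y : E4} (h : y ≠ 0) : prj y = mk (⟨y, h⟩ : Om) := by
  unfold prj
  rw [dif_pos h]

theorem prj_val (x : Om) : prj (x : E4) = mk x := prj_of (Om_ne x)

theorem prj_eq_iff {a b : E4} (ha : a ≠ 0) (hb : b ≠ 0) : prj a = prj b ↔ ∃ g : GG, LL g a = b := by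
  rw [prj_of ha, prj_of hb, mk_eq_iff]

theorem prj_LL {a : E4} (ha : a ≠ 0) (g : GG) : prj (LL g a) = prj a :=
  ((prj_eq_iff ha (LL_ne g ha)).2 ⟨g, rfl⟩).symm

theorem prj_cont {y : E4} (h : y ≠ 0) : ContinuousAt prj y := by
  have h0 : IsOpenEmbedding (Subtype.val : Om → E4) := Om.isOpen.isOpenEmbedding_subtypeVal
  have h1 : ContinuousAt (prj ∘ (Subtype.val : Om → E4)) ⟨y, h⟩ := by
    have : prj ∘ (Subtype.val : Om → E4) = mk := by
      funext x
      exact prj_val x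
    rw [this]
    exact continuous_mk.continuousAt
  exact (h0.continuousAt_iff (x := ⟨y, h⟩)).1 h1

theorem om_coe (x z : Om) : chartAt E4 x z = (z : E4) := rfl

theorem om_source (x : Om) : (chartAt E4 x).source = univ := by
  rw [TopologicalSpace.Opens.chartAt_eq, OpenPartialHomeomorph.subtypeRestr_source]
  rw [chartAt_self_eq]
  simp

theorem om_target (x : Om) : (chartAt E4 x).target = {y | y ≠ 0} := by
  have h1 := (chartAt E4 x).image_source_eq_target
  rw [← h1, om_source]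
  ext y
  constructor
  · rintro ⟨z, -, rfl⟩
    rw [om_coe]
    exact z.2
  · intro hy
    exact ⟨⟨y, hy⟩, mem_univ _, om_coe _ _⟩

theorem om_symm (x : Om) {y : E4} (hy : y ≠ 0) : (chartAt E4 x).symm y = ⟨y, hy⟩ := by
  apply Subtype.ext
  have h : y ∈ (chartAt E4 x).target := by rw [om_target]; exact hy
  have h2 := (chartAt E4 x).right_inv h
  rwa [om_coe] at h2

/-- charts of the atlas take nonzero values. -/
theorem target_ne {e : OpenPartialHomeomorph MM E4} (he : e ∈ atlas E4 MM)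
    {y : E4} (hy : y ∈ e.target) : y ≠ 0 := by
  obtain ⟨q, rfl⟩ := he
  have h1 := hy.1
  rw [om_target] at h1
  exact h1

theorem atlas_symm {e : OpenPartialHomeomorph MM E4} (he : e ∈ atlas E4 MM)
    {y : E4} (hy : y ≠ 0) : e.symm y = prj y := by
  obtain ⟨q, rfl⟩ := he
  rw [prj_of hy]
  simp [mk, IsLocalHomeomorph.localInverseAt_symm]
  rw [om_symm _ hy]

theorem prj_chart {e : OpenPartialHomeomorph MM E4} (he : e ∈ atlas E4 MM)
    {q : MM} (hq : q ∈ e.source) : prj (e q) = q := by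
  rw [← atlas_symm he (target_ne he (e.map_source hq)), e.left_inv hq]

theorem chart_injOn {e : OpenPartialHomeomorph MM E4} (he : e ∈ atlas E4 MM)
    {a b : E4} (ha : a ∈ e.target) (hb : b ∈ e.target) (h : prj a = prj b) : a = b := by
  rw [← e.right_inv ha, ← e.right_inv hb, atlas_symm he (target_ne he ha),
    atlas_symm he (target_ne he hb), h]

/-- a chart composed with the projection is locally a deck transformation -/
theorem chart_prj {e : OpenPartialHomeomorph MM E4} (he : e ∈ atlas E4 MM) {y : E4} (hy : y ≠ 0)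
    (hs : prj y ∈ e.source) : ∃ g : GG, LL g y = e (prj y) ∧ ∀ᶠ z in 𝓝 y, e (prj z) = LL g z := by
  have hne := target_ne he (e.map_source hs)
  obtain ⟨g, h⟩ := (prj_eq_iff hy hne).1 (prj_chart he hs).symm
  refine ⟨g, h, ?_⟩
  have h1 : ∀ᶠ z in 𝓝 y, LL g z ∈ e.target := by
    apply (LL g).continuous.continuousAt.eventually_mem
    rw [h]
    exact e.open_target.mem_nhds (e.map_source hs)
  have h2 : ∀ᶠ z in 𝓝 y, prj z ∈ e.source :=
    (prj_cont hy).eventually_mem (e.open_source.mem_nhds hs)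
  filter_upwards [h1, h2, isOpen_compl_singleton.mem_nhds hy] with z hz1 hz2 hz3
  apply chart_injOn he (e.map_source hz2) hz1
  rw [prj_chart he hz2, prj_LL hz3]

instance : IsManifold (𝓡 4) ∞ MM := by
  apply isManifold_of_contDiffOn
  intro e e' he he' y hy
  simp only [modelWithCornersSelf_coe, modelWithCornersSelf_coe_symm, Function.comp_id,
    Function.id_comp, preimage_id, range_id, inter_univ] at hy ⊢
  obtain ⟨hy1, hy2⟩ : y ∈ e.target ∧ e.symm y ∈ e'.source := by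
    simpa using hy
  have hy0 := target_ne he hy1
  rw [atlas_symm he hy0] at hy2
  obtain ⟨g, -, h2⟩ := chart_prj he' hy0 hy2
  apply ContDiffAt.contDiffWithinAt
  have h4 : ContDiffAt ℝ ∞ (fun z : E4 => LL g z) y := (LL g).contDiff.contDiffAt
  exact h4.congr_of_eventuallyEq (by
    filter_upwards [h2, isOpen_compl_singleton.mem_nhds hy0] with z hz hz0
    have : (e' ∘ e.symm) z = LL g z := by
      rw [Function.comp_apply, atlas_symm he hz0, hz]
    simpa using this)

/-- every point can be scaled to the shell. -/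
theorem exists_shell {y : E4} (hy : y ≠ 0) : ∃ m : ℤ, 1 ≤ ‖LL (Multiplicative.ofAdd (m, 0)) y‖ ∧
    ‖LL (Multiplicative.ofAdd (m, 0)) y‖ ≤ 2 := by
  obtain ⟨m, h1, h2⟩ := exists_mem_Ico_zpow (x := ‖y‖) (y := 2) (norm_pos_iff.2 hy) one_lt_two
  refine ⟨-m, ?_, ?_⟩
  · rw [norm_LL]
    change 1 ≤ 2 ^ (-m) * ‖y‖
    rw [zpow_neg, inv_mul_eq_div, le_div_iff₀ (by positivity)]
    simpa using h1
  · rw [norm_LL]
    change 2 ^ (-m) * ‖y‖ ≤ 2
    rw [zpow_neg, inv_mul_eq_div, div_le_iff₀ (by positivity)]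
    have h3 : (2 : ℝ) ^ (m + 1) = 2 * 2 ^ m := by rw [zpow_add₀ two_ne_zero]; ring
    rw [h3] at h2
    exact h2.le

theorem isCompact_shell : IsCompact {y : E4 | 1 ≤ ‖y‖ ∧ ‖y‖ ≤ 2} := by
  have h1 : {y : E4 | 1 ≤ ‖y‖ ∧ ‖y‖ ≤ 2} = Metric.closedBall 0 2 ∩ {y | 1 ≤ ‖y‖} := by
    ext y
    simp [and_comm]
  rw [h1]
  exact (isCompact_closedBall 0 2).inter_right (isClosed_le continuous_const continuous_norm)

instance : CompactSpace MM := by
  refine ⟨?_⟩
  have h1 : (univ : Set MM) = prj '' {y : E4 | 1 ≤ ‖y‖ ∧ ‖y‖ ≤ 2} := by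
    symm
    rw [eq_univ_iff_forall]
    intro q
    obtain ⟨y, rfl⟩ := mk_surj q
    obtain ⟨m, hm⟩ := exists_shell (Om_ne y)
    refine ⟨_, hm, ?_⟩
    rw [prj_LL (Om_ne y), prj_val]
  rw [h1]
  refine isCompact_shell.image_of_continuousOn fun y hy => (prj_cont ?_).continuousWithinAt
  rintro rfl
  have := hy.1
  norm_num at this

instance : ConnectedSpace MM := by
  have h1 : IsConnected ({0}ᶜ : Set E4) := by
    apply isConnected_compl_singleton_of_one_lt_rank
    rw [← Module.finrank_eq_rank]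
    simp
  have : ConnectedSpace Om := isConnected_iff_connectedSpace.1 h1
  exact mk_surj.connectedSpace continuous_mk

end Pool.Agent.T9h87.Engel
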