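import Mathlib

/-!
# Brackets of sections of a distribution spanned by given vector fields
-/
set_option autoImplicit false
open Set Filter Topology VectorField

namespace Pool.Agent.T9h87.Engel

variable {E : Type} [NormedAddCommGroup E] [NormedSpace ℝ E]

theorem diff_sum {ι : Type} {W : ι → E → E} {a : ι → E → ℝ} {x : E} (s : Finset ι)
    (hW : ∀ i, DifferentiableAt ℝ (W i) x) (ha : ∀ i, DifferentiableAt ℝ (a i) x) :
    DifferentiableAt ℝ (fun y => ∑ i ∈ s, a i y • W i y) x :=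
  DifferentiableAt.fun_sum fun i _ => (ha i).smul (hW i)

theorem br_left {ι : Type} {W : ι → E → E} {a : ι → E → ℝ} {V : E → E} {x : E}
    {S : Submodule ℝ E} (s : Finset ι)
    (hW : ∀ i, DifferentiableAt ℝ (W i) x) (ha : ∀ i, DifferentiableAt ℝ (a i) x)
    (hWS : ∀ i, W i x ∈ S) (hb : ∀ i, lieBracket ℝ (W i) V x ∈ S) :
    lieBracket ℝ (fun y => ∑ i ∈ s, a i y • W i y) V x ∈ S := by
  classical
  induction s using Finset.induction_on with
  | empty =>
    have : (fun y : E => ∑ i ∈ (∅ : Finset ι), a i y • W i y) = 0 := by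
      funext y; simp
    rw [this, lieBracket_zero_left]
    exact S.zero_mem
  | insert i s his ih =>
    have h1 : (fun y => ∑ j ∈ insert i s, a j y • W j y) =
        (fun y => a i y • W i y) + (fun y => ∑ j ∈ s, a j y • W j y) := by
      funext y
      rw [Finset.sum_insert his]
      rfl
    have hd : DifferentiableAt ℝ (fun y => a i y • W i y) x := (ha i).smul (hW i)
    rw [h1, lieBracket_add_left hd (diff_sum s hW ha)]
    refine S.add_mem ?_ ih
    rw [lieBracket_smul_left (ha i) (hW i)]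
    exact S.add_mem (S.smul_mem _ (hWS i)) (S.smul_mem _ (hb i))

theorem br_both {ι : Type} [Fintype ι] {W : ι → E → E} {a b : ι → E → ℝ} {x : E}
    {S : Submodule ℝ E}
    (hW : ∀ i, DifferentiableAt ℝ (W i) x) (ha : ∀ i, DifferentiableAt ℝ (a i) x)
    (hb : ∀ i, DifferentiableAt ℝ (b i) x)
    (hWS : ∀ i, W i x ∈ S) (hWW : ∀ i j, lieBracket ℝ (W i) (W j) x ∈ S) :
    lieBracket ℝ (fun y => ∑ i, a i y • W i y) (fun y => ∑ i, b i y • W i y) x ∈ S := by
  apply br_left Finset.univ hW ha hWS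
  intro i
  rw [lieBracket_swap]
  apply S.neg_mem
  apply br_left Finset.univ hW hb hWS
  intro j
  exact hWW j i

theorem exists_coeff [FiniteDimensional ℝ E] {k : ℕ} {W : Fin k → E → E} {V : E → E} {x : E}
    (hW : ∀ i, DifferentiableAt ℝ (W i) x) (hV : DifferentiableAt ℝ V x)
    (hli : LinearIndependent ℝ (fun i => W i x))
    (hs : ∀ᶠ y in 𝓝 x, V y ∈ Submodule.span ℝ (range fun i => W i y)) :
    ∃ a : Fin k → E → ℝ, (∀ i, DifferentiableAt ℝ (a i) x) ∧
      ∀ᶠ y in 𝓝 x, V y = ∑ i, a i y • W i y := by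
  have hinj : LinearMap.ker (Fintype.linearCombination ℝ (fun i => W i x)) = ⊥ := by
    rw [LinearMap.ker_eq_bot]
    exact hli.fintypeLinearCombination_injective
  obtain ⟨ℓ0, hℓ0⟩ := LinearMap.exists_leftInverse_of_injective _ hinj
  set ℓ : E →L[ℝ] (Fin k → ℝ) := LinearMap.toContinuousLinearMap ℓ0 with hℓ
  have hℓa : ∀ v, ℓ v = ℓ0 v := fun v => rfl
  set Ψ : E → ((Fin k → ℝ) →L[ℝ] (Fin k → ℝ)) := fun y =>
    ∑ i, ContinuousLinearMap.smulRightL ℝ (Fin k → ℝ) (Fin k → ℝ)
      (ContinuousLinearMap.proj (R := ℝ) (φ := fun _ : Fin k => ℝ) i) (ℓ (W i y)) with hΨ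
  have hΨa : ∀ y c, Ψ y c = ℓ (∑ i, c i • W i y) := by
    intro y c
    rw [map_sum, hΨ]
    simp only [sum_apply]
    refine Finset.sum_congr rfl fun i _ => ?_
    rw [map_smul]
    rfl
  have hΨx : Ψ x = ContinuousLinearMap.id ℝ _ := by
    ext c : 1
    rw [hΨa, hℓa]
    have h := LinearMap.congr_fun hℓ0 c
    rw [LinearMap.comp_apply, Fintype.linearCombination_apply] at h
    exact h
  have hΨd : DifferentiableAt ℝ Ψ x := by
    rw [hΨ]
    apply DifferentiableAt.fun_sum
    intro i _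
    exact (ContinuousLinearMap.differentiableAt _).comp x ((ContinuousLinearMap.differentiableAt ℓ).comp x (hW i))
  have hinvx : (Ψ x).IsInvertible := by
    rw [hΨx]
    exact ⟨ContinuousLinearEquiv.refl ℝ _, rfl⟩
  have hnear : ∀ᶠ y in 𝓝 x, (Ψ y).IsInvertible := by
    have h1 : {L : (Fin k → ℝ) →L[ℝ] (Fin k → ℝ) | L.IsInvertible} ∈ 𝓝 (Ψ x) := by
      obtain ⟨e, he⟩ := hinvx
      rw [← he]
      have := ContinuousLinearEquiv.nhds e
      exact Filter.mem_of_superset this (by rintro _ ⟨e', rfl⟩; exact ⟨e', rfl⟩)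
    exact hΨd.continuousAt.preimage_mem_nhds h1
  refine ⟨fun i y => (Ψ y).inverse (ℓ (V y)) i, ?_, ?_⟩
  · have h1 : DifferentiableAt ℝ (fun y => (Ψ y).inverse) x :=
      ((hinvx.contDiffAt_map_inverse (n := 1)).differentiableAt (by simp)).comp x hΨd
    have h2 : DifferentiableAt ℝ (fun y => (Ψ y).inverse (ℓ (V y))) x :=
      h1.clm_apply ((ContinuousLinearMap.differentiableAt ℓ).comp x hV)
    intro i
    exact differentiableAt_pi.1 h2 i
  · filter_upwards [hs, hnear] with y hy1 hy2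
    rw [Submodule.mem_span_range_iff_exists_fun] at hy1
    obtain ⟨c, hc⟩ := hy1
    have h1 : (Ψ y).inverse (ℓ (V y)) = c := by
      rw [← hc, ← hΨa]
      exact hy2.inverse_apply_self c
    simp only [h1]
    exact hc.symm

/-- the bracket of two sections of the distribution spanned by the fields `W i`. -/
theorem bracket_span [FiniteDimensional ℝ E] {k : ℕ} {W : Fin k → E → E} {V V' : E → E} {x : E}
    (hW : ∀ i, DifferentiableAt ℝ (W i) x) (hV : DifferentiableAt ℝ V x)
    (hV' : DifferentiableAt ℝ V' x)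
    (hli : LinearIndependent ℝ (fun i => W i x))
    (hs : ∀ᶠ y in 𝓝 x, V y ∈ Submodule.span ℝ (range fun i => W i y))
    (hs' : ∀ᶠ y in 𝓝 x, V' y ∈ Submodule.span ℝ (range fun i => W i y))
    {S : Submodule ℝ E} (h1 : ∀ i, W i x ∈ S) (h2 : ∀ i j, lieBracket ℝ (W i) (W j) x ∈ S) :
    lieBracket ℝ V V' x ∈ S := by
  obtain ⟨a, ha, hVa⟩ := exists_coeff hW hV hli hs
  obtain ⟨b, hb, hVb⟩ := exists_coeff hW hV' hli hs'
  have h3 : lieBracket ℝ V V' x =
      lieBracket ℝ (fun y => ∑ i, a i y • W i y) (fun y => ∑ i, b i y • W i y) x :=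
    Filter.EventuallyEq.lieBracket_vectorField_eq hVa hVb
  rw [h3]
  exact br_both hW ha hb h1 h2

end Pool.Agent.T9h87.Engel
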