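import Mathlib
import Pool.Agent.T9h87.Engel.Top
import Pool.Agent.T9h87.Engel.Bracket

/-!
# The obstruction on `ℝ⁴ ∖ 0`
-/
set_option autoImplicit false
open Set Filter Topology VectorField
open scoped ContDiff

namespace Pool.Agent.T9h87.Engel

/-- scalar product with `J4 y`. -/
noncomputable def pj (y v : E4) : ℝ := -y 2 * v 0 + y 3 * v 1 + y 0 * v 2 - y 1 * v 3
/-- scalar product with `K4 y`. -/
noncomputable def pk (y v : E4) : ℝ := -y 3 * v 0 - y 2 * v 1 + y 1 * v 2 + y 0 * v 3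

theorem pj_add (y v w : E4) : pj y (v + w) = pj y v + pj y w := by
  simp [pj]; ring
theorem pk_add (y v w : E4) : pk y (v + w) = pk y v + pk y w := by
  simp [pk]; ring
theorem pj_smul (y v : E4) (c : ℝ) : pj y (c • v) = c * pj y v := by
  simp [pj]; ring
theorem pk_smul (y v : E4) (c : ℝ) : pk y (c • v) = c * pk y v := by
  simp [pk]; ring
theorem pj_neg (y v : E4) : pj y (-v) = - pj y v := by
  simp [pj]; ring
theorem pk_neg (y v : E4) : pk y (-v) = - pk y v := by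
  simp [pk]; ring
theorem pj_sub (y v w : E4) : pj y (v - w) = pj y v - pj y w := by
  simp [pj]; ring
theorem pk_sub (y v w : E4) : pk y (v - w) = pk y v - pk y w := by
  simp [pk]; ring
theorem pj_I4 (y v : E4) : pj (I4 y) (I4 v) = - pj y v := by
  simp [pj, I4_apply]; ring
theorem pk_I4 (y v : E4) : pk (I4 y) (I4 v) = - pk y v := by
  simp [pk, I4_apply]; ring

theorem contDiffAt_coord {X : E4 → E4} {y : E4} {n : ℕ∞ω} (h : ContDiffAt ℝ n X y) (i : Fin 4) :
    ContDiffAt ℝ n (fun z => X z i) y :=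
  ((EuclideanSpace.proj i : E4 →L[ℝ] ℝ).contDiff.contDiffAt).comp y h

theorem contDiffAt_pj {X : E4 → E4} {y : E4} {n : ℕ∞ω} (h : ContDiffAt ℝ n X y) :
    ContDiffAt ℝ n (fun z => pj z (X z)) y := by
  have h0 := fun i => contDiffAt_coord h i
  have h1 := fun i => contDiffAt_coord (contDiffAt_id (𝕜 := ℝ) (x := y) (n := n)) i
  simp only [id] at h1
  unfold pj
  exact ((((h1 2).neg.mul (h0 0)).add ((h1 3).mul (h0 1))).add ((h1 0).mul (h0 2))).sub
    ((h1 1).mul (h0 3))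

theorem contDiffAt_pk {X : E4 → E4} {y : E4} {n : ℕ∞ω} (h : ContDiffAt ℝ n X y) :
    ContDiffAt ℝ n (fun z => pk z (X z)) y := by
  have h0 := fun i => contDiffAt_coord h i
  have h1 := fun i => contDiffAt_coord (contDiffAt_id (𝕜 := ℝ) (x := y) (n := n)) i
  simp only [id] at h1
  unfold pk
  exact ((((h1 3).neg.mul (h0 0)).sub ((h1 2).mul (h0 1))).add ((h1 1).mul (h0 2))).add
    ((h1 0).mul (h0 3))

/-- determinant of four vectors. -/
noncomputable def det4 (v : Fin 4 → E4) : ℝ := Matrix.det (Matrix.of fun i j => v i j)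

theorem det4_ne {v : Fin 4 → E4} (h : LinearIndependent ℝ v) : det4 v ≠ 0 := by
  unfold det4
  have h1 : LinearIndependent ℝ (fun i => (WithLp.linearEquiv 2 ℝ (Fin 4 → ℝ)) (v i)) :=
    h.map' (WithLp.linearEquiv 2 ℝ (Fin 4 → ℝ)).toLinearMap (LinearEquiv.ker _)
  have h2 : LinearIndependent ℝ (Matrix.of fun i j => v i j).row := h1
  rw [Matrix.linearIndependent_rows_iff_isUnit] at h2
  exact ((Matrix.isUnit_iff_isUnit_det _).1 h2).ne_zero

theorem det4_I4 (a b c d : E4) : det4 ![I4 a, I4 b, I4 c, I4 d] = det4 ![a, b, c, d] := by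
  unfold det4
  rw [Matrix.det_succ_row_zero, Matrix.det_succ_row_zero]
  simp [Fin.sum_univ_succ, Matrix.det_succ_row_zero, I4_apply, Fin.succAbove]
  ring

theorem det4_neg (a b c d : E4) : det4 ![-a, -b, -c, d] = - det4 ![a, b, c, d] := by
  unfold det4
  rw [Matrix.det_succ_row_zero, Matrix.det_succ_row_zero]
  simp [Fin.sum_univ_succ, Matrix.det_succ_row_zero, Fin.succAbove]
  ring

/-- `X` is `C^∞` near `x`. -/
def SmE (X : E4 → E4) (x : E4) : Prop := ∀ᶠ y in 𝓝 x, ContDiffAt ℝ ∞ X y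

/-- `X` is near `x` a smooth section of `D`. -/
def SecE (D : E4 → Submodule ℝ E4) (X : E4 → E4) (x : E4) : Prop :=
  SmE X x ∧ ∀ᶠ y in 𝓝 x, X y ∈ D y

/-- the derived distribution. -/
noncomputable def brE (D : E4 → Submodule ℝ E4) (x : E4) : Submodule ℝ E4 :=
  D x ⊔ Submodule.span ℝ {v | ∃ X Y : E4 → E4, SecE D X x ∧ SecE D Y x ∧ v = lieBracket ℝ X Y x}

theorem SmE.diff {X : E4 → E4} {x : E4} (h : SmE X x) : DifferentiableAt ℝ X x :=
  (h.self_of_nhds).differentiableAt (by simp)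

/-- brackets of equivariant fields. -/
theorem br_equiv {V W : E4 → E4} {σ τ : ℝ} (hV : ∀ y, y ≠ 0 → V (I4 y) = σ • I4 (V y))
    (hW : ∀ y, y ≠ 0 → W (I4 y) = τ • I4 (W y)) (hVd : ∀ y, y ≠ 0 → DifferentiableAt ℝ V y)
    (hWd : ∀ y, y ≠ 0 → DifferentiableAt ℝ W y) {y : E4} (hy : y ≠ 0) :
    lieBracket ℝ V W (I4 y) = (σ * τ) • I4 (lieBracket ℝ V W y) := by
  have hIy : I4 y ≠ 0 := by
    intro h
    apply hy
    have := I4_I4 y
    rw [h, map_zero] at this
    exact neg_eq_zero.1 this.symm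
  have key : ∀ (U : E4 → E4) (ρ : ℝ), (∀ y, y ≠ 0 → U (I4 y) = ρ • I4 (U y)) →
      (∀ y, y ≠ 0 → DifferentiableAt ℝ U y) → ∀ u, fderiv ℝ U (I4 y) (I4 u) = ρ • I4 (fderiv ℝ U y u) := by
    intro U ρ h1 h2 u
    have e1 : HasFDerivAt (fun z => U (I4 z)) ((fderiv ℝ U (I4 y)).comp I4) y :=
      (h2 _ hIy).hasFDerivAt.comp y I4.hasFDerivAt
    have e2 : HasFDerivAt (fun z => ρ • I4 (U z)) (ρ • (I4.comp (fderiv ℝ U y))) y :=
      (I4.hasFDerivAt.comp y (h2 y hy).hasFDerivAt).const_smul ρ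
    have e3 : (fun z => U (I4 z)) =ᶠ[𝓝 y] fun z => ρ • I4 (U z) := by
      filter_upwards [isOpen_compl_singleton.mem_nhds hy] with z hz
      exact h1 z hz
    have e4 := (e2.congr_of_eventuallyEq e3).unique e1
    have e5 := congrArg (fun L : E4 →L[ℝ] E4 => L u) e4
    exact e5.symm
  simp only [lieBracket]
  rw [hV y hy, hW y hy, map_smul, map_smul, key W τ hW hWd, key V σ hV hVd, map_sub, smul_sub,
    smul_smul, smul_smul, mul_comm τ σ]

end Pool.Agent.T9h87.Engel
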