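import Mathlib
import Pool.Agent.T9h87.Engel.Obstr

/-!
# The obstruction on `ℝ⁴ ∖ 0`, continued
-/
set_option autoImplicit false
open Set Filter Topology VectorField
open scoped ContDiff

namespace Pool.Agent.T9h87.Engel

variable {D : E4 → Submodule ℝ E4}

/-- the hypothesis that `D` is a smooth plane field near `y` -/
def RankTwo (D : E4 → Submodule ℝ E4) (y : E4) : Prop :=
  ∃ Y : Fin 2 → E4 → E4, (∀ i, SmE (Y i) y) ∧
      ∀ᶠ z in 𝓝 y, LinearIndependent ℝ (fun i => Y i z) ∧
        D z = Submodule.span ℝ (range fun i => Y i z)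

theorem det_ne_of {u v y : E4} (hli : LinearIndependent ℝ ![u, v])
    (htr : ∀ w ∈ Submodule.span ℝ {u, v}, pj y w = 0 → pk y w = 0 → w = 0) :
    pj y u * pk y v - pk y u * pj y v ≠ 0 := by
  intro h0
  rw [LinearIndependent.pair_iff] at hli
  have hmem : ∀ a b : ℝ, a • u + b • v ∈ Submodule.span ℝ {u, v} := fun a b =>
    Submodule.mem_span_pair.2 ⟨a, b, rfl⟩
  have h1 := htr _ (hmem (pk y v) (-(pk y u)))
    (by rw [pj_add, pj_smul, pj_smul]; linarith) (by rw [pk_add, pk_smul, pk_smul]; ring)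
  have h2 := htr _ (hmem (pj y v) (-(pj y u)))
    (by rw [pj_add, pj_smul, pj_smul]; ring) (by rw [pk_add, pk_smul, pk_smul]; linarith)
  have h3 := hli _ _ h1
  have h4 := hli _ _ h2
  have h5 := htr _ (hmem 1 0)
    (by rw [pj_add, pj_smul, pj_smul]; linarith [neg_eq_zero.1 h4.2])
    (by rw [pk_add, pk_smul, pk_smul]; linarith [neg_eq_zero.1 h3.2])
  exact one_ne_zero (hli _ _ h5).1

theorem frame (hD : ∀ y, y ≠ 0 → RankTwo D y)
    (htr : ∀ y, y ≠ 0 → ∀ v ∈ D y, pj y v = 0 → pk y v = 0 → v = 0) (α β : ℝ) :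
    ∃ X : E4 → E4, ∀ y, y ≠ 0 → SmE X y ∧ X y ∈ D y ∧ pj y (X y) = α ∧ pk y (X y) = β := by
  classical
  -- the local formula
  have loc : ∀ y, y ≠ 0 → ∃ L : E4 → E4, SmE L y ∧
      ∀ᶠ z in 𝓝 y, L z ∈ D z ∧ pj z (L z) = α ∧ pk z (L z) = β := by
    intro y hy
    obtain ⟨Y, hY, hsp⟩ := hD y hy
    set Δ : E4 → ℝ := fun z => pj z (Y 0 z) * pk z (Y 1 z) - pk z (Y 0 z) * pj z (Y 1 z) with hΔ
    have hne : ∀ᶠ z in 𝓝 y, Δ z ≠ 0 := by
      filter_upwards [hsp, isOpen_compl_singleton.mem_nhds hy] with z hz hz0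
      have hr : (range fun i => Y i z) = {Y 0 z, Y 1 z} := by
        ext w
        simp [Fin.exists_fin_two, eq_comm]
      apply det_ne_of
      · have := hz.1
        convert this using 1
        funext i
        fin_cases i <;> rfl
      · intro w hw
        rw [← hr, ← hz.2] at hw
        exact htr z hz0 w hw
    refine ⟨fun z => (Δ z)⁻¹ • ((α * pk z (Y 1 z) - β * pj z (Y 1 z)) • Y 0 z +
      (β * pj z (Y 0 z) - α * pk z (Y 0 z)) • Y 1 z), ?_, ?_⟩
    · filter_upwards [hne, hY 0, hY 1] with z hz h0 h1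
      have a0 := contDiffAt_pj h0
      have a1 := contDiffAt_pk h0
      have b0 := contDiffAt_pj h1
      have b1 := contDiffAt_pk h1
      have hd : ContDiffAt ℝ ∞ Δ z := (a0.mul b1).sub (a1.mul b0)
      exact (hd.inv hz).smul ((((contDiffAt_const.mul b1).sub (contDiffAt_const.mul b0)).smul h0).add
        (((contDiffAt_const.mul a0).sub (contDiffAt_const.mul a1)).smul h1))
    · filter_upwards [hne, hsp] with z hz hs
      refine ⟨?_, ?_, ?_⟩
      · rw [hs.2]
        have m0 : Y 0 z ∈ Submodule.span ℝ (range fun i => Y i z) := Submodule.subset_span ⟨0, rfl⟩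
        have m1 : Y 1 z ∈ Submodule.span ℝ (range fun i => Y i z) := Submodule.subset_span ⟨1, rfl⟩
        exact Submodule.smul_mem _ _ (Submodule.add_mem _ (Submodule.smul_mem _ _ m0) (Submodule.smul_mem _ _ m1))
      · rw [pj_smul, pj_add, pj_smul, pj_smul, inv_mul_eq_iff_eq_mul₀ hz]
        simp only [hΔ]; ring
      · rw [pk_smul, pk_add, pk_smul, pk_smul, inv_mul_eq_iff_eq_mul₀ hz]
        simp only [hΔ]; ring
  have ex : ∀ y, y ≠ 0 → ∃ v, v ∈ D y ∧ pj y v = α ∧ pk y v = β := by
    intro y hy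
    obtain ⟨L, -, hL⟩ := loc y hy
    exact ⟨L y, hL.self_of_nhds⟩
  have uniq : ∀ y, y ≠ 0 → ∀ v w, v ∈ D y → w ∈ D y → pj y v = α → pk y v = β → pj y w = α →
      pk y w = β → v = w := by
    intro y hy v w hv hw h1 h2 h3 h4
    have := htr y hy (v - w) (Submodule.sub_mem _ hv hw) (by rw [pj_sub, h1, h3, sub_self])
      (by rw [pk_sub, h2, h4, sub_self])
    exact sub_eq_zero.1 this
  refine ⟨fun y => if h : y ≠ 0 then (ex y h).choose else 0, ?_⟩
  have hX : ∀ y (h : y ≠ 0), (fun y => if h : y ≠ 0 then (ex y h).choose else 0) y = (ex y h).choose := by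
    intro y h
    simp only [dif_pos h]
  intro y hy
  rw [hX y hy]
  refine ⟨?_, (ex y hy).choose_spec⟩
  obtain ⟨L, hL1, hL2⟩ := loc y hy
  have heq : (fun y => if h : y ≠ 0 then (ex y h).choose else 0) =ᶠ[𝓝 y] L := by
    filter_upwards [hL2, isOpen_compl_singleton.mem_nhds hy] with z hz hz0
    rw [dif_pos (show z ≠ 0 from hz0)]
    have := (ex z hz0).choose_spec
    exact uniq z hz0 _ _ this.1 hz.1 this.2.1 this.2.2 hz.2.1 hz.2.2
  have h1 := heq.eventuallyEq_nhds
  filter_upwards [hL1, h1] with z hz1 hz2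
  exact hz1.congr_of_eventuallyEq hz2

theorem I4_ne {y : E4} (hy : y ≠ 0) : I4 y ≠ 0 := by
  intro h
  apply hy
  have := I4_I4 y
  rw [h, map_zero] at this
  exact neg_eq_zero.1 this.symm

theorem SmE.br {V W : E4 → E4} {y : E4} (hV : SmE V y) (hW : SmE W y) :
    SmE (lieBracket ℝ V W) y := by
  filter_upwards [hV, hW] with z h1 h2
  exact h1.lieBracket_vectorField h2 (by simp)

/-- the obstruction -/
theorem obstruction (D E : E4 → Submodule ℝ E4) (hD : ∀ y, y ≠ 0 → RankTwo D y)
    (htr : ∀ y, y ≠ 0 → ∀ v ∈ D y, pj y v = 0 → pk y v = 0 → v = 0)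
    (hinv : ∀ y, y ≠ 0 → ∀ v ∈ D y, I4 v ∈ D (I4 y))
    (hE3 : ∀ y, y ≠ 0 → Module.finrank ℝ (E y) = 3)
    (hEb : ∀ y, y ≠ 0 → E y ≤ brE D y)
    (hEE : ∀ y, y ≠ 0 → brE E y = ⊤) : False := by
  obtain ⟨X2, hX2⟩ := frame hD htr 1 0
  obtain ⟨X3, hX3⟩ := frame hD htr 0 1
  set X4 : E4 → E4 := lieBracket ℝ X2 X3 with hX4
  have s2 : ∀ y, y ≠ 0 → SmE X2 y := fun y hy => (hX2 y hy).1
  have s3 : ∀ y, y ≠ 0 → SmE X3 y := fun y hy => (hX3 y hy).1
  have s4 : ∀ y, y ≠ 0 → SmE X4 y := fun y hy => (s2 y hy).br (s3 y hy)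
  have d2 : ∀ y, y ≠ 0 → DifferentiableAt ℝ X2 y := fun y hy => (s2 y hy).diff
  have d3 : ∀ y, y ≠ 0 → DifferentiableAt ℝ X3 y := fun y hy => (s3 y hy).diff
  have d4 : ∀ y, y ≠ 0 → DifferentiableAt ℝ X4 y := fun y hy => (s4 y hy).diff
  -- linear independence of X2, X3
  have li2 : ∀ y, y ≠ 0 → LinearIndependent ℝ ![X2 y, X3 y] := by
    intro y hy
    rw [LinearIndependent.pair_iff]
    intro a b hab
    have e1 := congrArg (pj y) hab
    have e2 := congrArg (pk y) hab
    rw [pj_add, pj_smul, pj_smul, (hX2 y hy).2.2.1, (hX3 y hy).2.2.1] at e1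
    rw [pk_add, pk_smul, pk_smul, (hX2 y hy).2.2.2, (hX3 y hy).2.2.2] at e2
    have z1 : pj y 0 = 0 := by simp [pj]
    have z2 : pk y 0 = 0 := by simp [pk]
    rw [z1] at e1
    rw [z2] at e2
    constructor <;> linarith
  have hDsp : ∀ y, y ≠ 0 → ∀ v ∈ D y, v ∈ Submodule.span ℝ (range ![X2 y, X3 y]) := by
    intro y hy v hv
    have : v = pj y v • X2 y + pk y v • X3 y := by
      rw [← sub_eq_zero]
      apply htr y hy
      · exact Submodule.sub_mem _ hv (Submodule.add_mem _ (Submodule.smul_mem _ _ (hX2 y hy).2.1)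
          (Submodule.smul_mem _ _ (hX3 y hy).2.1))
      · rw [pj_sub, pj_add, pj_smul, pj_smul, (hX2 y hy).2.2.1, (hX3 y hy).2.2.1]; ring
      · rw [pk_sub, pk_add, pk_smul, pk_smul, (hX2 y hy).2.2.2, (hX3 y hy).2.2.2]; ring
    rw [this]
    exact Submodule.add_mem _ (Submodule.smul_mem _ _ (Submodule.subset_span ⟨0, rfl⟩))
      (Submodule.smul_mem _ _ (Submodule.subset_span ⟨1, rfl⟩))
  -- the derived distribution
  have hEsp : ∀ y, y ≠ 0 → E y ≤ Submodule.span ℝ (range ![X2 y, X3 y, X4 y]) := by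
    intro y hy
    refine (hEb y hy).trans ?_
    have m2 : X2 y ∈ Submodule.span ℝ (range ![X2 y, X3 y, X4 y]) := Submodule.subset_span ⟨0, rfl⟩
    have m3 : X3 y ∈ Submodule.span ℝ (range ![X2 y, X3 y, X4 y]) := Submodule.subset_span ⟨1, rfl⟩
    have m4 : X4 y ∈ Submodule.span ℝ (range ![X2 y, X3 y, X4 y]) := Submodule.subset_span ⟨2, rfl⟩
    apply sup_le
    · intro v hv
      refine Submodule.span_le.2 ?_ (hDsp y hy v hv)
      rintro _ ⟨i, rfl⟩
      fin_cases i
      · exact m2
      · exact m3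
    · rw [Submodule.span_le]
      rintro _ ⟨X, Y, hX, hY, rfl⟩
      have hr : ∀ z, (fun i => (![X2, X3] : Fin 2 → E4 → E4) i z) = ![X2 z, X3 z] := by
        intro z; funext i; fin_cases i <;> rfl
      apply bracket_span (W := ![X2, X3]) (k := 2)
      · intro i
        fin_cases i
        · exact d2 y hy
        · exact d3 y hy
      · exact hX.1.diff
      · exact hY.1.diff
      · rw [hr]
        exact li2 y hy
      · filter_upwards [hX.2, isOpen_compl_singleton.mem_nhds hy] with z h1 h2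
        rw [hr]
        exact hDsp z h2 _ h1
      · filter_upwards [hY.2, isOpen_compl_singleton.mem_nhds hy] with z h1 h2
        rw [hr]
        exact hDsp z h2 _ h1
      · intro i
        fin_cases i
        · exact m2
        · exact m3
      · intro i j
        fin_cases i <;> fin_cases j
        · change lieBracket ℝ X2 X2 y ∈ _
          rw [lieBracket_self]
          exact Submodule.zero_mem _
        · exact m4
        · change lieBracket ℝ X3 X2 y ∈ _
          rw [lieBracket_swap]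
          exact Submodule.neg_mem _ m4
        · change lieBracket ℝ X3 X3 y ∈ _
          rw [lieBracket_self]
          exact Submodule.zero_mem _
  have hEeq : ∀ y, y ≠ 0 → E y = Submodule.span ℝ (range ![X2 y, X3 y, X4 y]) := by
    intro y hy
    apply Submodule.eq_of_le_of_finrank_le (hEsp y hy)
    rw [hE3 y hy]
    exact (finrank_range_le_card _).trans (by simp)
  have li3 : ∀ y, y ≠ 0 → LinearIndependent ℝ ![X2 y, X3 y, X4 y] := by
    intro y hy
    rw [linearIndependent_iff_card_eq_finrank_span, Set.finrank, ← hEeq y hy, hE3 y hy]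
    simp
  -- the two functions
  set B2 : E4 → E4 := lieBracket ℝ X2 X4 with hB2
  set B3 : E4 → E4 := lieBracket ℝ X3 X4 with hB3
  set A : E4 → ℝ := fun y => det4 ![B2 y, X2 y, X3 y, X4 y] with hA
  set B : E4 → ℝ := fun y => det4 ![B3 y, X2 y, X3 y, X4 y] with hB
  have hmem : ∀ y, y ≠ 0 → ∀ v, det4 ![v, X2 y, X3 y, X4 y] = 0 → v ∈ E y := by
    intro y hy v hv
    by_contra hne
    rw [hEeq y hy] at hne
    have : LinearIndependent ℝ ![v, X2 y, X3 y, X4 y] := by
      have := linearIndependent_finCons.2 ⟨li3 y hy, hne⟩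
      exact this
    exact det4_ne this hv
  have hAB : ∀ y, y ≠ 0 → A y ≠ 0 ∨ B y ≠ 0 := by
    intro y hy
    by_contra hcon
    push Not at hcon
    have k2 : B2 y ∈ E y := hmem y hy _ hcon.1
    have k3 : B3 y ∈ E y := hmem y hy _ hcon.2
    have m2 : X2 y ∈ E y := by rw [hEeq y hy]; exact Submodule.subset_span ⟨0, rfl⟩
    have m3 : X3 y ∈ E y := by rw [hEeq y hy]; exact Submodule.subset_span ⟨1, rfl⟩
    have m4 : X4 y ∈ E y := by rw [hEeq y hy]; exact Submodule.subset_span ⟨2, rfl⟩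
    have hle : brE E y ≤ E y := by
      apply sup_le le_rfl
      rw [Submodule.span_le]
      rintro _ ⟨X, Y, hX, hY, rfl⟩
      have hr : ∀ z, (fun i => (![X2, X3, X4] : Fin 3 → E4 → E4) i z) = ![X2 z, X3 z, X4 z] := by
        intro z; funext i; fin_cases i <;> rfl
      apply bracket_span (W := ![X2, X3, X4]) (k := 3)
      · intro i
        fin_cases i
        · exact d2 y hy
        · exact d3 y hy
        · exact d4 y hy
      · exact hX.1.diff
      · exact hY.1.diff
      · rw [hr]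
        exact li3 y hy
      · filter_upwards [hX.2, isOpen_compl_singleton.mem_nhds hy] with z h1 h2
        rw [hr, ← hEeq z h2]
        exact h1
      · filter_upwards [hY.2, isOpen_compl_singleton.mem_nhds hy] with z h1 h2
        rw [hr, ← hEeq z h2]
        exact h1
      · intro i
        fin_cases i
        · exact m2
        · exact m3
        · exact m4
      · intro i j
        fin_cases i <;> fin_cases j
        · change lieBracket ℝ X2 X2 y ∈ _
          rw [lieBracket_self]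
          exact Submodule.zero_mem _
        · exact m4
        · exact k2
        · change lieBracket ℝ X3 X2 y ∈ _
          rw [lieBracket_swap]
          exact Submodule.neg_mem _ m4
        · change lieBracket ℝ X3 X3 y ∈ _
          rw [lieBracket_self]
          exact Submodule.zero_mem _
        · exact k3
        · change lieBracket ℝ X4 X2 y ∈ _
          rw [lieBracket_swap]
          exact Submodule.neg_mem _ k2
        · change lieBracket ℝ X4 X3 y ∈ _
          rw [lieBracket_swap]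
          exact Submodule.neg_mem _ k3
        · change lieBracket ℝ X4 X4 y ∈ _
          rw [lieBracket_self]
          exact Submodule.zero_mem _
    rw [hEE y hy, top_le_iff] at hle
    have h1 := hE3 y hy
    rw [hle, finrank_top] at h1
    simp at h1
  -- equivariance
  have q2 : ∀ y, y ≠ 0 → X2 (I4 y) = (-1 : ℝ) • I4 (X2 y) := by
    intro y hy
    rw [← sub_eq_zero]
    apply htr _ (I4_ne hy)
    · exact Submodule.sub_mem _ (hX2 _ (I4_ne hy)).2.1 (Submodule.smul_mem _ _ (hinv y hy _ (hX2 y hy).2.1))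
    · rw [pj_sub, pj_smul, pj_I4, (hX2 y hy).2.2.1, (hX2 _ (I4_ne hy)).2.2.1]; ring
    · rw [pk_sub, pk_smul, pk_I4, (hX2 y hy).2.2.2, (hX2 _ (I4_ne hy)).2.2.2]; ring
  have q3 : ∀ y, y ≠ 0 → X3 (I4 y) = (-1 : ℝ) • I4 (X3 y) := by
    intro y hy
    rw [← sub_eq_zero]
    apply htr _ (I4_ne hy)
    · exact Submodule.sub_mem _ (hX3 _ (I4_ne hy)).2.1 (Submodule.smul_mem _ _ (hinv y hy _ (hX3 y hy).2.1))
    · rw [pj_sub, pj_smul, pj_I4, (hX3 y hy).2.2.1, (hX3 _ (I4_ne hy)).2.2.1]; ring
    · rw [pk_sub, pk_smul, pk_I4, (hX3 y hy).2.2.2, (hX3 _ (I4_ne hy)).2.2.2]; ring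
  have q4 : ∀ y, y ≠ 0 → X4 (I4 y) = (1 : ℝ) • I4 (X4 y) := by
    intro y hy
    rw [hX4, br_equiv q2 q3 d2 d3 hy]
    norm_num
  have qB2 : ∀ y, y ≠ 0 → B2 (I4 y) = (-1 : ℝ) • I4 (B2 y) := by
    intro y hy
    rw [hB2, br_equiv q2 q4 d2 d4 hy]
    norm_num
  have qB3 : ∀ y, y ≠ 0 → B3 (I4 y) = (-1 : ℝ) • I4 (B3 y) := by
    intro y hy
    rw [hB3, br_equiv q3 q4 d3 d4 hy]
    norm_num
  have qA : ∀ y, y ≠ 0 → A (I4 y) = - A y := by
    intro y hy
    simp only [hA]
    rw [q2 y hy, q3 y hy, q4 y hy, qB2 y hy, one_smul, neg_one_smul, neg_one_smul, neg_one_smul,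
      det4_neg, det4_I4]
  have qB : ∀ y, y ≠ 0 → B (I4 y) = - B y := by
    intro y hy
    simp only [hB]
    rw [q2 y hy, q3 y hy, q4 y hy, qB3 y hy, one_smul, neg_one_smul, neg_one_smul, neg_one_smul,
      det4_neg, det4_I4]
  -- continuity
  have cdet : ∀ (U : E4 → E4) (y : E4), y ≠ 0 → SmE U y →
      ContinuousAt (fun z => det4 ![U z, X2 z, X3 z, X4 z]) y := by
    intro U y hy hU
    have c1 : ContinuousAt U y := hU.diff.continuousAt
    have c2 := (d2 y hy).continuousAt
    have c3 := (d3 y hy).continuousAt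
    have c4 := (d4 y hy).continuousAt
    have hcont : Continuous fun v : Fin 4 → E4 => det4 v := by
      unfold det4
      apply Continuous.matrix_det
      apply continuous_matrix
      intro i j
      exact (EuclideanSpace.proj j : E4 →L[ℝ] ℝ).continuous.comp (continuous_apply i)
    have hv : ContinuousAt (fun z => ![U z, X2 z, X3 z, X4 z]) y := by
      rw [continuousAt_pi]
      intro i
      fin_cases i
      · exact c1
      · exact c2
      · exact c3
      · exact c4
    exact hcont.continuousAt.comp hv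
  apply no_odd (fun y => (⟨A y, B y⟩ : ℂ))
  · intro y hy
    have cA : ContinuousAt A y := cdet B2 y hy ((s2 y hy).br (s4 y hy))
    have cB : ContinuousAt B y := cdet B3 y hy ((s3 y hy).br (s4 y hy))
    have h1 : ContinuousAt (fun y => ((A y : ℂ) + (B y : ℂ) * Complex.I)) y :=
      (Complex.continuous_ofReal.continuousAt.comp cA).add
        ((Complex.continuous_ofReal.continuousAt.comp cB).mul continuousAt_const)
    have h2 : (fun y => (⟨A y, B y⟩ : ℂ)) = fun y => ((A y : ℂ) + (B y : ℂ) * Complex.I) := by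
      funext z
      exact Complex.mk_eq_add_mul_I _ _
    rw [h2]
    exact h1
  · intro y hy h
    rcases hAB y hy with h1 | h1
    · exact h1 (congrArg Complex.re h)
    · exact h1 (congrArg Complex.im h)
  · intro y hy
    apply Complex.ext
    · exact qA y hy
    · exact qB y hy

end Pool.Agent.T9h87.Engel
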