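import Mathlib
import Pool.Agent.T9h87.Engel.Mfd
import Pool.Agent.T9h87.Engel.Obstr2

/-!
# The projection `ℝ⁴ ∖ 0 → M` and vector fields
-/
set_option autoImplicit false
set_option linter.unusedSectionVars false
open Set Filter Topology VectorField
open scoped ContDiff Manifold

namespace Pool.Agent.T9h87.Engel

/-- the distinguished lift of a point of `M` -/
noncomputable def lf (m : MM) : E4 := chartAt E4 m m

theorem lf_ne (m : MM) : lf m ≠ 0 :=
  target_ne (chart_mem_atlas E4 m) ((chartAt E4 m).map_source (mem_chart_source E4 m))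

theorem prj_lf (m : MM) : prj (lf m) = m :=
  prj_chart (chart_mem_atlas E4 m) (mem_chart_source E4 m)

theorem LL_cancel {g h : GG} {y : E4} (hy : y ≠ 0) (e : LL g y = LL h y) : g = h := by
  have h1 : LL (h⁻¹ * g) y = y := by rw [LL_mul, e, LL_inv]
  have h2 := free_aux hy h1
  exact (inv_mul_eq_one.1 h2).symm

/-- the projection has the derivative given by the deck transformation to the distinguished lift -/
theorem hasMFDeriv_prj {y : E4} (hy : y ≠ 0) : ∃ g : GG, LL g y = lf (prj y) ∧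
    ContMDiffAt (𝓡 4) (𝓡 4) ∞ prj y ∧ HasMFDerivAt (𝓡 4) (𝓡 4) prj y (LL g) := by
  obtain ⟨g, h1, h2⟩ := chart_prj (chart_mem_atlas E4 (prj y)) hy (mem_chart_source E4 (prj y))
  refine ⟨g, h1, ?_, ?_⟩
  · rw [contMDiffAt_iff]
    refine ⟨prj_cont hy, ?_⟩
    apply ContDiffAt.contDiffWithinAt
    have h4 : ContDiffAt ℝ ∞ (fun z : E4 => LL g z) y := (LL g).contDiff.contDiffAt
    refine h4.congr_of_eventuallyEq ?_
    filter_upwards [h2] with z hz
    exact hz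
  · refine ⟨prj_cont hy, ?_⟩
    apply HasFDerivAt.hasFDerivWithinAt
    have h4 : HasFDerivAt (fun z : E4 => LL g z) (LL g) y := (LL g).hasFDerivAt
    refine h4.congr_of_eventuallyEq ?_
    filter_upwards [h2] with z hz
    exact hz

/-- derivative of the projection -/
noncomputable def dprj (y : E4) : E4 →L[ℝ] E4 := mfderiv (𝓡 4) (𝓡 4) prj y

theorem dprj_spec {y : E4} (hy : y ≠ 0) : ∃ g : GG, LL g y = lf (prj y) ∧ dprj y = LL g := by
  obtain ⟨g, h1, -, h3⟩ := hasMFDeriv_prj hy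
  exact ⟨g, h1, h3.mfderiv⟩

theorem LL_invertible (g : GG) : (LL g).IsInvertible :=
  ⟨ContinuousLinearEquiv.equivOfInverse (LL g) (LL g⁻¹) (LL_inv g) (LL_inv' g), rfl⟩

theorem dprj_inv {y : E4} (hy : y ≠ 0) : (dprj y).IsInvertible := by
  obtain ⟨g, -, h⟩ := dprj_spec hy
  rw [h]
  exact LL_invertible g

theorem dprj_inj {y : E4} (hy : y ≠ 0) : Function.Injective (dprj y) := (dprj_inv hy).injective

theorem dprj_lf (m : MM) : dprj (lf m) = ContinuousLinearMap.id ℝ E4 := by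
  obtain ⟨g, h1, h2⟩ := dprj_spec (lf_ne m)
  rw [prj_lf] at h1
  have h3 : g = 1 := free_aux (lf_ne m) h1
  rw [h2, h3]
  ext1 v
  exact LL_one v

theorem dprj_LL {y : E4} (hy : y ≠ 0) (h : GG) (v : E4) : dprj (LL h y) (LL h v) = dprj y v := by
  obtain ⟨g, h1, h2⟩ := dprj_spec hy
  obtain ⟨g', h1', h2'⟩ := dprj_spec (LL_ne h hy)
  rw [prj_LL hy, ← h1, ← LL_mul] at h1'
  have h3 : g' * h = g := LL_cancel hy h1'
  rw [h2, h2', ← LL_mul, h3]

/-- the quarter turn as a deck transformation -/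
def gq : GG := Multiplicative.ofAdd (0, 1)

theorem LL_gq (y : E4) : LL gq y = I4 y := by
  rw [LL_apply]
  change (2 : ℝ) ^ (0 : ℤ) • ((cZ 1 : ℝ) • y + (sZ 1 : ℝ) • I4 y) = I4 y
  have h1 : cZ 1 = 0 := by decide
  have h2 : sZ 1 = 1 := by decide
  rw [h1, h2]
  simp

/-- pull back of a vector field to `ℝ⁴ ∖ 0` -/
noncomputable def pb (X : (m : MM) → TangentSpace (𝓡 4) m) : E4 → E4 :=
  mpullback (𝓡 4) (𝓡 4) prj X

theorem pb_apply (X : (m : MM) → TangentSpace (𝓡 4) m) {y : E4} (hy : y ≠ 0) :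
    dprj y (pb X y) = X (prj y) := (dprj_inv hy).self_apply_inverse _

theorem pb_smooth {X : (m : MM) → TangentSpace (𝓡 4) m} {y : E4} (hy : y ≠ 0)
    (hX : ContMDiffAt (𝓡 4) (𝓡 4).tangent ∞ (fun z => (⟨z, X z⟩ : TangentBundle (𝓡 4) MM)) (prj y)) :
    ContDiffAt ℝ ∞ (pb X) y := by
  obtain ⟨g, -, h2, -⟩ := hasMFDeriv_prj hy
  have h3 := ContMDiffAt.mpullback_vectorField_preimage hX h2 (dprj_inv hy) (by simp)
  exact contMDiffAt_vectorSpace_iff_contDiffAt.1 h3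

theorem two_le_infty : (2 : ℕ∞ω) ≤ ∞ := ENat.LEInfty.out

theorem pb_bracket {X Y : (m : MM) → TangentSpace (𝓡 4) m} {y : E4} (hy : y ≠ 0)
    (hX : ContMDiffAt (𝓡 4) (𝓡 4).tangent ∞ (fun z => (⟨z, X z⟩ : TangentBundle (𝓡 4) MM)) (prj y))
    (hY : ContMDiffAt (𝓡 4) (𝓡 4).tangent ∞ (fun z => (⟨z, Y z⟩ : TangentBundle (𝓡 4) MM)) (prj y)) :
    dprj y (lieBracket ℝ (pb X) (pb Y) y) = mlieBracket (𝓡 4) X Y (prj y) := by
  obtain ⟨g, -, h2, -⟩ := hasMFDeriv_prj hy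
  have hman : IsManifold (𝓡 4) (minSmoothness ℝ 2) MM :=
    IsManifold.of_le (n := ∞) (by rw [minSmoothness_of_isRCLikeNormedField]; exact two_le_infty)
  have h3 := mpullback_mlieBracket (I := 𝓡 4) (x₀ := y) (hX.mdifferentiableAt (by simp))
    (hY.mdifferentiableAt (by simp)) h2
    (by rw [minSmoothness_of_isRCLikeNormedField]; exact two_le_infty)
  have h4 : mlieBracket (𝓡 4) (show (x : E4) → TangentSpace (𝓡 4) x from pb X)
      (show (x : E4) → TangentSpace (𝓡 4) x from pb Y) y = (show E4 from lieBracket ℝ (pb X) (pb Y) y) := by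
    rw [← mlieBracketWithin_univ, mlieBracketWithin_eq_lieBracketWithin, lieBracketWithin_univ]
  have h5 : (show E4 from lieBracket ℝ (pb X) (pb Y) y) = (dprj y).inverse (mlieBracket (𝓡 4) X Y (prj y)) := by
    rw [← h4]
    exact h3.symm
  have h6 : lieBracket ℝ (pb X) (pb Y) y = (dprj y).inverse (mlieBracket (𝓡 4) X Y (prj y)) := h5
  rw [h6]
  exact (dprj_inv hy).self_apply_inverse _

/-- derivative of a chart -/
theorem hasMFDeriv_chart (m0 : MM) {m : MM} (hm : m ∈ (chartAt E4 m0).source) :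
    ∃ g : GG, LL g (lf m) = chartAt E4 m0 m ∧
    ContMDiffAt (𝓡 4) (𝓡 4) ∞ (chartAt E4 m0) m ∧ HasMFDerivAt (𝓡 4) (𝓡 4) (chartAt E4 m0) m (LL g) := by
  have hs : prj (lf m) ∈ (chartAt E4 m0).source := by rw [prj_lf]; exact hm
  obtain ⟨g, h1, h2⟩ := chart_prj (chart_mem_atlas E4 m0) (lf_ne m) hs
  rw [prj_lf] at h1
  have hc : ContinuousAt (chartAt E4 m0) m := (chartAt E4 m0).continuousAt hm
  have heq : (fun z => (extChartAt (𝓡 4) (chartAt E4 m0 m) ∘ (chartAt E4 m0) ∘ (extChartAt (𝓡 4) m).symm) z)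
      =ᶠ[𝓝 (lf m)] fun z => LL g z := by
    filter_upwards [h2, isOpen_compl_singleton.mem_nhds (lf_ne m)] with z hz hz0
    have h3 : (extChartAt (𝓡 4) m).symm z = prj z := by
      have := atlas_symm (chart_mem_atlas E4 m) hz0
      simpa using this
    simp only [Function.comp_apply, h3]
    exact hz
  have hpt : extChartAt (𝓡 4) m m = lf m := by simp [lf]
  refine ⟨g, h1, ?_, ?_⟩
  · rw [contMDiffAt_iff]
    refine ⟨hc, ?_⟩
    apply ContDiffAt.contDiffWithinAt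
    rw [hpt]
    have h4 : ContDiffAt ℝ ∞ (fun z : E4 => LL g z) (lf m) := (LL g).contDiff.contDiffAt
    exact h4.congr_of_eventuallyEq heq
  · refine ⟨hc, ?_⟩
    apply HasFDerivAt.hasFDerivWithinAt
    rw [hpt]
    have h4 : HasFDerivAt (fun z : E4 => LL g z) (LL g) (lf m) := (LL g).hasFDerivAt
    exact h4.congr_of_eventuallyEq heq

/-- the local vector field on `M` given in the chart at `m0` by the field `A` on `ℝ⁴` -/
noncomputable def ch (m0 : MM) (A : E4 → E4) (m : MM) : TangentSpace (𝓡 4) m :=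
  mpullback (𝓡 4) (𝓡 4) (chartAt E4 m0) A m

theorem ch_apply (m0 : MM) (A : E4 → E4) {m : MM} (hm : m ∈ (chartAt E4 m0).source) :
    ∃ g : GG, LL g (lf m) = chartAt E4 m0 m ∧ (ch m0 A m : E4) = LL g⁻¹ (A (LL g (lf m))) := by
  obtain ⟨g, h1, h2, h3⟩ := hasMFDeriv_chart m0 hm
  refine ⟨g, h1, ?_⟩
  have h4 : (ch m0 A m : E4) = (LL g).inverse (A (chartAt E4 m0 m)) := by
    change (mfderiv (𝓡 4) (𝓡 4) (chartAt E4 m0) m).inverse (A (chartAt E4 m0 m)) = _
    rw [h3.mfderiv]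
    rfl
  rw [h4, ← h1]
  have h5 : (LL g).inverse = LL g⁻¹ := by
    have : ((ContinuousLinearEquiv.equivOfInverse (LL g) (LL g⁻¹) (LL_inv g) (LL_inv' g) : E4 ≃L[ℝ] E4) : E4 →L[ℝ] E4) = LL g := rfl
    rw [← this, ContinuousLinearMap.inverse_equiv]
    rfl
  rw [h5]

theorem ch_smooth (m0 : MM) {A : E4 → E4} (hA : ContDiff ℝ ∞ A) {m : MM} (hm : m ∈ (chartAt E4 m0).source) :
    ContMDiffAt (𝓡 4) (𝓡 4).tangent ∞ (fun z => (⟨z, ch m0 A z⟩ : TangentBundle (𝓡 4) MM)) m := by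
  obtain ⟨g, h1, h2, h3⟩ := hasMFDeriv_chart m0 hm
  have hinv : (mfderiv (𝓡 4) (𝓡 4) (chartAt E4 m0) m).IsInvertible := by
    rw [h3.mfderiv]
    exact LL_invertible g
  have hA' : ContMDiffAt (𝓡 4) (𝓡 4).tangent ∞
      (fun u => (⟨u, A u⟩ : TangentBundle (𝓡 4) E4)) (chartAt E4 m0 m) :=
    contMDiffAt_vectorSpace_iff_contDiffAt.2 hA.contDiffAt
  exact ContMDiffAt.mpullback_vectorField_preimage hA' h2 hinv (by simp)

theorem ch_bracket (m0 : MM) {A B : E4 → E4} (hA : ContDiff ℝ ∞ A) (hB : ContDiff ℝ ∞ B) :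
    (mlieBracket (𝓡 4) (ch m0 A) (ch m0 B) m0 : E4) = lieBracket ℝ A B (lf m0) := by
  have hm := mem_chart_source E4 m0
  obtain ⟨g, h1, h2, h3⟩ := hasMFDeriv_chart m0 hm
  have hg : g = 1 := free_aux (lf_ne m0) h1
  have hA' : ContMDiffAt (𝓡 4) (𝓡 4).tangent ∞
      (fun u => (⟨u, A u⟩ : TangentBundle (𝓡 4) E4)) (chartAt E4 m0 m0) :=
    contMDiffAt_vectorSpace_iff_contDiffAt.2 hA.contDiffAt
  have hB' : ContMDiffAt (𝓡 4) (𝓡 4).tangent ∞
      (fun u => (⟨u, B u⟩ : TangentBundle (𝓡 4) E4)) (chartAt E4 m0 m0) :=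
    contMDiffAt_vectorSpace_iff_contDiffAt.2 hB.contDiffAt
  have hman : IsManifold (𝓡 4) (minSmoothness ℝ 2) MM :=
    IsManifold.of_le (n := ∞) (by rw [minSmoothness_of_isRCLikeNormedField]; exact two_le_infty)
  have h5 := mpullback_mlieBracket (I := 𝓡 4) (x₀ := m0) (hA'.mdifferentiableAt (by simp))
    (hB'.mdifferentiableAt (by simp)) h2
    (by rw [minSmoothness_of_isRCLikeNormedField]; exact two_le_infty)
  have h6 : mlieBracket (𝓡 4) (show (x : E4) → TangentSpace (𝓡 4) x from A)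
      (show (x : E4) → TangentSpace (𝓡 4) x from B) (chartAt E4 m0 m0) =
        (show E4 from lieBracket ℝ A B (chartAt E4 m0 m0)) := by
    rw [← mlieBracketWithin_univ, mlieBracketWithin_eq_lieBracketWithin, lieBracketWithin_univ]
  have h7 : (mlieBracket (𝓡 4) (ch m0 A) (ch m0 B) m0 : E4) =
      (mfderiv (𝓡 4) (𝓡 4) (chartAt E4 m0) m0).inverse
        (mlieBracket (𝓡 4) (show (x : E4) → TangentSpace (𝓡 4) x from A)
      (show (x : E4) → TangentSpace (𝓡 4) x from B) (chartAt E4 m0 m0)) := h5.symm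
  rw [h7, h6, h3.mfderiv]
  change (LL g).inverse (lieBracket ℝ A B (lf m0)) = lieBracket ℝ A B (lf m0)
  have h8 : LL g = ContinuousLinearMap.id ℝ E4 := by
    rw [hg]
    ext1 v
    exact LL_one v
  rw [h8, ContinuousLinearMap.inverse_id]
  rfl

end Pool.Agent.T9h87.Engel
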